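import Pool.Agent.MP_7b45f6_mp.H32.Spec

/-!
# Tours with an arbitrary starting point
-/

set_option autoImplicit false

namespace Pool.Agent.MP_7b45f6_mp.H32

open Classical Filter Topology

namespace TBA

/-- Translation of a list. -/
def tr (t : P) (w : List P) : List P := w.map (· + t)

/-- Translation that moves the first entry to `p`. -/
def mv (p : P) (w : List P) : List P := tr (p - hd w) w

theorem tr_tr (s t : P) (w : List P) : tr s (tr t w) = tr (t + s) w := by
  simp only [tr, List.map_map]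
  exact List.map_congr_left fun x _ => add_assoc x t s

theorem tr_zero (w : List P) : tr 0 w = w := by simp [tr]

theorem tr_rotate (t : P) (w : List P) (k : ℕ) : (tr t w).rotate k = tr t (w.rotate k) :=
  (List.map_rotate _ _ _).symm

theorem tr_take (t : P) (w : List P) (k : ℕ) : (tr t w).take k = tr t (w.take k) :=
  List.map_take.symm

theorem eq_mv {t : P} {z : List P} (h : tr t z ≠ []) : tr t z = mv (hd (tr t z)) z := by
  have hz : z ≠ [] := by
    rintro rfl
    exact h rfl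
  rw [mv, tr, hd_map _ hz, add_sub_cancel_left]
  rfl

theorem tour_ne {p : P} {n : ℕ} {w : List P} (h : w ∈ Tour p n) : w ≠ [] := by
  rintro rfl
  exact h.2.2.2.2.ne rfl

theorem tour_tr {p : P} {n : ℕ} {w : List P} (h : w ∈ Tour p n) (t : P)
    (ht : ∀ x ∈ w, 0 ≤ x 2 + t 2) : tr t w ∈ Tour (p + t) n := by
  have hw := tour_ne h
  obtain ⟨h1, h2, h3, h4, h5⟩ := h
  refine ⟨⟨h1.1.map (add_left_injective t), fun x hx => ?_⟩, by simpa [tr] using h2, ?_, ?_, ?_⟩
  · obtain ⟨y, hy, rfl⟩ := List.mem_map.1 hx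
    exact ht y hy
  · rw [tr, hd_map _ hw, h3]
  · rw [tr, List.isChain_map]
    exact h4.imp fun a b hab => (adj_add a b t).2 hab
  · rw [tr, hd_map _ hw, lt_map _ hw]
    exact (adj_add _ _ t).2 h5

theorem phi_tr (θ : Par) (w : List P) (t : P) (ht : ∀ x ∈ w, x 2 + t 2 = 0 ↔ x 2 = 0) :
    phi θ (tr t w).toFinset = phi θ w.toFinset := by
  rw [show (tr t w).toFinset = w.toFinset.image (· + t) by
    ext
    simp only [tr, List.mem_toFinset, List.mem_map, Finset.mem_image]]
  exact phi_image θ (add_left_injective t).injOn (fun x hx => ht x (List.mem_toFinset.1 hx))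
    fun x _ y _ => adj_add x y t

theorem phi_comm (θ : Par) (u v : List P) :
    phi θ (v ++ u).toFinset = phi θ (u ++ v).toFinset := by
  rw [List.toFinset_eq_of_perm _ _ List.perm_append_comm]

/-- A tour with a surface site comes from a tour through the origin. -/
theorem surf (θ : Par) {p : P} {n : ℕ} {w : List P} (h : w ∈ Tour p n) (hs : ∃ x ∈ w, x 2 = 0) :
    ∃ y ∈ Tour 0 n, ∃ k, k ≤ n ∧ ∃ t, w = tr t (y.rotate k) ∧
      phi θ y.toFinset = phi θ w.toFinset := by
  obtain ⟨x, hx, hx0⟩ := hs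
  obtain ⟨u, v, rfl⟩ := List.append_of_mem hx
  have h1 : x :: v ++ u ∈ Tour x n := Tour.rot h
  have h2 := tour_tr h1 (-x) fun z hz => by
    simpa [hx0] using h1.1.2 z hz
  rw [add_neg_cancel] at h2
  refine ⟨_, h2, (x :: v).length, ?_, x, ?_, ?_⟩
  · rw [← h1.2.1, List.length_append]
    omega
  · rw [tr_rotate, List.rotate_append_length_eq, tr_tr, neg_add_cancel, tr_zero]
  · rw [phi_tr θ _ _ fun z _ => by simp [hx0], phi_comm]

/-- A tour in height at least one whose closing edge is in height one is extended to the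
surface. -/
theorem down {p : P} {n : ℕ} {w : List P} (h : w ∈ Tour p n) (h1 : ∀ x ∈ w, 1 ≤ x 2)
    (h2 : hd w 2 = 1) (h3 : lt w 2 = 1) :
    w ++ [lt w - ev 2, hd w - ev 2] ∈ Tour p (n + 2) := by
  have hw := tour_ne h
  obtain ⟨h4, h5, h6, h7, h8⟩ := h
  have e1 : (lt w - ev 2) 2 = 0 := by simp [h3]
  have e2 : (hd w - ev 2) 2 = 0 := by simp [h2]
  have h9 : Adj (lt w - ev 2) (hd w - ev 2) := by
    rw [sub_eq_add_neg, sub_eq_add_neg]
    exact (adj_add _ _ _).2 h8
  refine ⟨⟨?_, fun x hx => ?_⟩, by simp [h5], by rw [hd_append hw, h6], ?_, ?_⟩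
  · rw [List.nodup_append]
    refine ⟨h4.1, by simpa using h9.ne, fun a ha b hb e => ?_⟩
    have := h1 a ha
    simp only [List.mem_cons, List.not_mem_nil, or_false] at hb
    rcases hb with rfl | rfl
    · rw [e, e1] at this
      omega
    · rw [e, e2] at this
      omega
  · rcases List.mem_append.1 hx with hx | hx
    · exact h4.2 x hx
    · simp only [List.mem_cons, List.not_mem_nil, or_false] at hx
      rcases hx with rfl | rfl
      · exact e1.ge
      · exact e2.ge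
  · rw [← jn_eq_zero] at h7 ⊢
    rw [jn, cs_append _ hw (by simp), hd_cons, jmp_adj (adj_ev' _ _), cs_cons_cons, jmp_adj h9]
    exact h7
  · rw [hd_append hw, lt_append _ (by simp), lt_cons_cons, lt_single]
    exact (adj_ev' _ _).symm

/-- A tour without a surface site comes from a longer tour through the origin. -/
theorem high (θ : Par) {p : P} {n : ℕ} {w : List P} (h : w ∈ Tour p n) (hn : 3 ≤ n)
    (hs : ¬ ∃ x ∈ w, x 2 = 0) :
    ∃ y ∈ Tour 0 (n + 2), ∃ k, k ≤ n + 2 ∧ ∃ j, j ≤ n ∧ ∃ t,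
      w = tr t (((y.rotate k).take n).rotate j) ∧
      phi θ w.toFinset ≤ kap θ * 2 + phi θ y.toFinset := by
  obtain ⟨u, v, rfl, h1, h2⟩ := ext_edge h hn 2
  have h3 := Tour.rot h
  have hw := tour_ne h3
  have hm : ∀ q, q ∈ v ++ u ↔ q ∈ u ++ v := fun q => List.perm_append_comm.mem_iff
  have h4 : ∀ q ∈ v ++ u, 1 ≤ q 2 := fun q hq => by
    have h5 := h3.1.2 q hq
    have h6 : q 2 ≠ 0 := fun e => hs ⟨q, (hm q).1 hq, e⟩
    omega
  obtain ⟨s, hs2⟩ : ∃ s : P, s 2 = 1 - hd (v ++ u) 2 := ⟨fun _ => 1 - hd (v ++ u) 2, rfl⟩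
  have h5 : ∀ q ∈ v ++ u, 1 ≤ q 2 + s 2 := fun q hq => by
    have := h2 q ((hm q).1 hq)
    omega
  have h6 := tour_tr h3 s fun q hq => by
    have := h5 q hq
    omega
  have h7 := down h6 (fun x hx => by
      obtain ⟨q, hq, rfl⟩ := List.mem_map.1 hx
      exact h5 q hq)
    (by rw [tr, hd_map _ hw, Pi.add_apply]; omega)
    (by rw [tr, lt_map _ hw, Pi.add_apply]; omega)
  obtain ⟨y, hy, k, hk, t, e, h8⟩ := surf θ h7 ⟨hd (tr s (v ++ u)) - ev 2, by simp, by
    rw [tr, hd_map _ hw, Pi.sub_apply, Pi.add_apply, ev_same]; omega⟩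
  refine ⟨y, hy, k, hk, v.length, ?_, t + -s, ?_, ?_⟩
  · rw [← h3.2.1, List.length_append]
    omega
  · rw [← tr_tr, ← tr_rotate t, ← tr_take t, ← e, List.take_left' h6.2.1, tr_rotate, tr_tr,
      add_neg_cancel, tr_zero, List.rotate_append_length_eq]
  · have h9 := phi_near θ (V := (tr s (v ++ u)).toFinset) (m := 2)
      (W := (tr s (v ++ u) ++ [lt (tr s (v ++ u)) - ev 2, hd (tr s (v ++ u)) - ev 2]).toFinset)
      (fun x hx => List.mem_toFinset.2 (List.mem_append_left _ (List.mem_toFinset.1 hx)))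
      (by rw [h7.1.card, h6.1.card, h7.2.1, h6.2.1])
    rw [← h8, phi_tr θ _ s (fun x hx => by
      have := h5 x hx
      have := h4 x hx
      omega), phi_comm, abs_le] at h9
    have := h9.1
    push_cast at this
    linarith

end TBA

open TBA in
theorem tb : TBStmt := by
  rintro θ ⟨C, hC⟩
  have h0 : 0 ≤ C := (hC 0).nonneg
  have hk := kap_nonneg θ
  have hE : 0 < Real.exp (kap θ * 2) := Real.exp_pos _
  refine ⟨36 * Real.exp (kap θ * 2) + C + Real.exp (kap θ * 2) * C, fun p n => ?_⟩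
  have hn0 : (0 : ℝ) ≤ n := Nat.cast_nonneg n
  have hEC : 0 ≤ Real.exp (kap θ * 2) * C := mul_nonneg hE.le h0
  by_cases hn : 3 ≤ n
  · have hA : Bd {w | w ∈ Tour p n ∧ ∃ x ∈ w, x 2 = 0} (ew θ) (1 * (n + 1 : ℕ) * C) := by
      have hf := fan_dec (Finset.range (n + 1)) fun (k : ℕ) (y : List P) => mv p (y.rotate k)
      rw [Finset.card_range] at hf
      refine (hC n).transfer hf zero_le_one (fun y => (ew_pos θ y).le) fun w hw => ?_
      obtain ⟨y, hy, k, hk, t, e, h1⟩ := surf θ hw.1 hw.2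
      refine ⟨y, hy, ⟨k, Finset.mem_range.2 (by omega), ?_⟩, by rw [one_mul, ew, ew, h1]⟩
      rw [← hw.1.2.2.1, e]
      exact eq_mv (e ▸ tour_ne hw.1)
    have hB : Bd {w | w ∈ Tour p n ∧ ¬ ∃ x ∈ w, x 2 = 0} (ew θ)
        (Real.exp (kap θ * 2) * ((n + 3) * (n + 1) : ℕ) * C) := by
      have hf := fan_dec (Finset.range (n + 3) ×ˢ Finset.range (n + 1))
        fun (k : ℕ × ℕ) (y : List P) => mv p (((y.rotate k.1).take n).rotate k.2)
      rw [Finset.card_product, Finset.card_range, Finset.card_range] at hf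
      refine (hC (n + 2)).transfer hf hE.le (fun y => (ew_pos θ y).le) fun w hw => ?_
      obtain ⟨y, hy, k, hk, j, hj, t, e, h1⟩ := high θ hw.1 hn hw.2
      refine ⟨y, hy, ⟨(k, j), Finset.mem_product.2
        ⟨Finset.mem_range.2 (by omega), Finset.mem_range.2 (by omega)⟩, ?_⟩, ?_⟩
      · rw [← hw.1.2.2.1, e]
        exact eq_mv (e ▸ tour_ne hw.1)
      · rw [ew, ew, ← Real.exp_add]
        exact Real.exp_le_exp.2 h1
    refine (hA.union hB).mono (fun w hw => ?_) (fun _ _ => le_rfl) ?_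
    · by_cases h : ∃ x ∈ w, x 2 = 0
      · exact Or.inl ⟨hw, h⟩
      · exact Or.inr ⟨hw, h⟩
    · push_cast
      have h1 : C * ((n : ℝ) + 1) ≤ C * ((n : ℝ) + 3) ^ 2 :=
        mul_le_mul_of_nonneg_left (by nlinarith) h0
      have h2 : Real.exp (kap θ * 2) * C * (((n : ℝ) + 3) * (n + 1)) ≤
          Real.exp (kap θ * 2) * C * ((n : ℝ) + 3) ^ 2 :=
        mul_le_mul_of_nonneg_left (by nlinarith) hEC
      have h3 : 0 ≤ Real.exp (kap θ * 2) * ((n : ℝ) + 3) ^ 2 := by positivity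
      nlinarith
  · refine (bd_crude θ p n).mono (fun _ h => h) (fun _ _ => le_rfl) ?_
    have h1 : (6 : ℝ) ^ n ≤ 6 ^ 2 := pow_le_pow_right₀ (by norm_num) (by omega)
    have h2 : (n : ℝ) ≤ 2 := by exact_mod_cast (show n ≤ 2 by omega)
    have h3 : Real.exp (kap θ * n) ≤ Real.exp (kap θ * 2) :=
      Real.exp_le_exp.2 (mul_le_mul_of_nonneg_left h2 hk)
    have h4 : (6 : ℝ) ^ n * Real.exp (kap θ * n) ≤ 6 ^ 2 * Real.exp (kap θ * 2) :=
      mul_le_mul h1 h3 (Real.exp_pos _).le (by norm_num)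
    have h5 : (1 : ℝ) ≤ ((n : ℝ) + 3) ^ 2 := by nlinarith
    have h6 : 0 ≤ 36 * Real.exp (kap θ * 2) + C + Real.exp (kap θ * 2) * C := by positivity
    have h7 := mul_le_mul_of_nonneg_left h5 h6
    linarith

end Pool.Agent.MP_7b45f6_mp.H32
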